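import Pool.Agent.Y748.FinA

open Filter Topology MeasureTheory

namespace Pool.Agent.Results.MP_21f43f_nt.OrthogonalLawExcluded

/-- multiplicity of `s` as a zero of the Riemann zeta function (order of vanishing at `s`) -/
noncomputable def zmult (s : ℂ) : ℕ := analyticOrderNatAt riemannZeta s

/-- the number of nontrivial zeros of `ζ` with ordinate in `(0, t]`, with multiplicity -/
noncomputable def NZ (t : ℝ) : ℕ :=
  ∑ᶠ s ∈ {s : ℂ | riemannZeta s = 0 ∧ 0 < s.re ∧ s.re < 1 ∧ 0 < s.im ∧ s.im ≤ t}, zmult s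

/-- for `n ≥ 1`: the `n`-th positive ordinate `γ n` of a nontrivial zero of `ζ`, the ordinates being
listed in nondecreasing order and repeated according to multiplicity -/
noncomputable def γ (n : ℕ) : ℝ := sInf {t : ℝ | n ≤ NZ t}

/-- the normalised gaps `δ_n = (γ_{n+1} log γ_{n+1} - γ_n log γ_n) / 2π` -/
noncomputable def δ (n : ℕ) : ℝ :=
  (γ (n + 1) * Real.log (γ (n + 1)) - γ n * Real.log (γ n)) / (2 * Real.pi)

/-- the normalised Haar measure of the torus `(ℝ/ℤ)^k` -/
noncomputable def haar (k : ℕ) : Measure (UnitAddTorus (Fin k)) :=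
  Measure.pi fun _ => AddCircle.haarAddCircle

open Classical in
/-- the indices `1 ≤ n ≤ N` for which `(α_1 γ_n, …, α_k γ_n)` modulo one lies in `U` -/
noncomputable def ix {k : ℕ} (α : Fin k → ℝ) (U : Set (UnitAddTorus (Fin k))) (N : ℕ) :
    Finset ℕ :=
  (Finset.Icc 1 N).filter fun n => (fun j => ((α j * γ n : ℝ) : UnitAddCircle)) ∈ U

/-- the even part `sin π(x-y) / π(x-y) + sin π(x+y) / π(x+y)` of the sine kernel -/
noncomputable def K (x y : ℝ) : ℝ :=
  Real.sinc (Real.pi * (x - y)) + Real.sinc (Real.pi * (x + y))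

/-- the gap probability of the Gaussian orthogonal ensemble in the bulk: the Fredholm determinant
of `1 - K` on `L²(0, s/2)`, given by Fredholm's series -/
noncomputable def EGOE (s : ℝ) : ℝ :=
  ∑' n : ℕ, (-1) ^ n / (n.factorial : ℝ) *
    ∫ x : Fin n → ℝ in Set.pi Set.univ (fun _ => Set.Icc 0 (s / 2)),
      Matrix.det (Matrix.of fun i j => K (x i) (x j))

/-- `μ` is the weak limit, along some sequence of values of `N`, of the distributions of the
normalised gaps `δ_n` with `n` in `ix α U N` -/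
def IsLimitLaw {k : ℕ} (α : Fin k → ℝ) (U : Set (UnitAddTorus (Fin k))) (μ : Measure ℝ) : Prop :=
  ∃ i : ℕ → ℕ, Tendsto i atTop atTop ∧
    ∀ f : ℝ → ℝ, Continuous f → (∃ B : ℝ, ∀ t, |f t| ≤ B) →
      Tendsto (fun j => (∑ n ∈ ix α U (i j), f (δ n)) / ((ix α U (i j)).card : ℝ)) atTop
        (𝓝 (∫ t, f t ∂μ))

lemma sum_ix {k : ℕ} (α : Fin k → ℝ) (U : Set (UnitAddTorus (Fin k))) (N : ℕ) (f : ℕ → ℝ) :
    ∑ n ∈ ix α U N, f n = ∑ n ∈ Finset.Icc 1 N, Pool.Agent.Y748.ind α U (SG.ord n) * f n := by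
  classical
  unfold ix
  rw [Finset.sum_filter]
  refine Finset.sum_congr rfl fun n _ => ?_
  unfold Pool.Agent.Y748.ind
  have e : (fun j => ((α j * γ n : ℝ) : UnitAddCircle)) =
      Pool.Agent.Results.MP_103a5c_nt.BohrSetPairs.pt α (SG.ord n) := rfl
  rw [e]
  by_cases h : Pool.Agent.Results.MP_103a5c_nt.BohrSetPairs.pt α (SG.ord n) ∈ U
  · rw [if_pos h, Set.indicator_of_mem h, Pi.one_apply, one_mul]
  · rw [if_neg h, Set.indicator_of_notMem h, zero_mul]

lemma card_ix {k : ℕ} (α : Fin k → ℝ) (U : Set (UnitAddTorus (Fin k))) (N : ℕ) :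
    ((ix α U N).card : ℝ) = ∑ n ∈ Finset.Icc 1 N, Pool.Agent.Y748.ind α U (SG.ord n) := by
  have h := sum_ix α U N (fun _ => 1)
  simp only [mul_one] at h
  rw [← h, Finset.sum_const, nsmul_eq_mul, mul_one]

/-- On the Riemann hypothesis, for the zeros with ordinates in any Bohr set `{t : αt mod 1 ∈ U}`
(`α_1, …, α_k` linearly independent over `ℚ`, `U` with null boundary and positive measure; `k = 0`
gives all the zeros): the mean of `max (δ_n - 0.92) 0` is at most `0.2442`, while the same mean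
for the spacing law of the Gaussian orthogonal ensemble is the gap probability
`EGOE 0.92 ≥ 0.2468`; hence no limit law of the normalised gaps is the law of the orthogonal
ensemble, nor the exponential law. -/
theorem result (RH : RiemannHypothesis) {k : ℕ} (α : Fin k → ℝ)
    (hα : ∀ n : Fin k → ℤ, ∑ j, (n j : ℝ) * α j = 0 → n = 0) (U : Set (UnitAddTorus (Fin k)))
    (hU : haar k (frontier U) = 0) (hU0 : haar k U ≠ 0) :
    (∀ᶠ N : ℕ in atTop, ∑ n ∈ ix α U N, max (δ n - 0.92) 0 ≤ 0.2442 * ((ix α U N).card : ℝ)) ∧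
    0.2468 ≤ EGOE 0.92 ∧
    ∀ μ : Measure ℝ, IsProbabilityMeasure μ → IsLimitLaw α U μ →
      ¬ (∀ s : ℝ, 0 ≤ s → ∫ t, max (t - s) 0 ∂μ = EGOE s) ∧
      ¬ (∀ s : ℝ, 0 ≤ s → ∫ t, max (t - s) 0 ∂μ = Real.exp (-s)) := by
  have hE : (0.2468 : ℝ) ≤ EGOE 0.92 := by
    have h := Pool.Agent.Y748.EG_ge
    rw [Pool.Agent.Y748.EG_eq] at h
    have e : (23 / 25 : ℝ) = 0.92 := by norm_num
    rw [e] at h
    refine le_trans (by norm_num) h
  refine ⟨?_, hE, fun μ hμ hlim => ?_⟩
  · filter_upwards [Pool.Agent.Y748.setA RH hα hU hU0] with N hN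
    rw [sum_ix, card_ix]
    have e : (0.92 : ℝ) = 23 / 25 := by norm_num
    have e2 : (0.2442 : ℝ) = 2442 / 10000 := by norm_num
    rw [e, e2]
    exact hN
  · obtain ⟨i, hi, hf⟩ := hlim
    have h := Pool.Agent.Y748.finA RH hα hU hU0 μ hμ i hi (fun f hc hB => by
      have h1 := hf f hc hB
      simp only [sum_ix, card_ix] at h1
      exact h1)
    have e : (23 / 25 : ℝ) = 0.92 := by norm_num
    rw [e] at h
    constructor
    · intro hg
      rw [hg 0.92 (by norm_num)] at h
      have : (2442 / 10000 : ℝ) < 0.2468 := by norm_num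
      linarith
    · intro hg
      rw [hg 0.92 (by norm_num)] at h
      have h1 : Real.exp (-1) ≤ Real.exp (-(0.92 : ℝ)) := Real.exp_le_exp.2 (by norm_num)
      have h2 : (1 / 2.7182818286 : ℝ) < Real.exp (-1) := by
        rw [Real.exp_neg, one_div]
        exact inv_strictAnti₀ (Real.exp_pos 1) Real.exp_one_lt_d9
      have h3 : (2442 / 10000 : ℝ) < 1 / 2.7182818286 := by norm_num
      linarith

end Pool.Agent.Results.MP_21f43f_nt.OrthogonalLawExcluded
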